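import Mathlib
import Pool.Agent.helper24.FilGauss
import Pool.Agent.helper24.FilGamA

/-!
`gam0` as an integral (MP_3bca80_gt, Q1).
-/

namespace Fil27.Gam

open MeasureTheory ProbabilityTheory Set Filter Topology

/-- the standard Gaussian measure -/
noncomputable abbrev γ : Measure ℝ := gaussianReal 0 1

/-- integral of an odd function -/
lemma integral_odd {g : ℝ → ℝ} (h : ∀ x, g (-x) = -g x) : ∫ x, g x = 0 := by
  have h1 : ∫ x, g (-x) = ∫ x, g x := integral_neg_eq_self g volume
  simp only [h] at h1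
  rw [integral_neg] at h1
  linarith

/-- antiderivative -/
noncomputable def G (x : ℝ) : ℝ :=
  gQ x * Real.log (gQ x) - gQ x - gQ x * (gQ x * Real.log (gQ x)) + gQ x ^ 2 / 2

lemma hasDerivAt_G (x : ℝ) : HasDerivAt G (gphi x * gE x * (1 - 2 * gQ x)) x := by
  have hq := hasDerivAt_gQ x
  have hl := hq.mul (hq.log (gQ_pos x).ne')
  have h := ((hl.sub hq).sub (hq.mul hl)).add ((hq.pow 2).div_const 2)
  refine h.congr_deriv ?_
  have := (gQ_pos x).ne'
  simp only [Pi.mul_apply]
  unfold gE
  field_simp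
  ring

lemma integral_gE_odd : ∫ x, gphi x * gE x * (1 - 2 * gQ x) = 1 / 2 := by
  have hi : Integrable (fun x => gphi x * gE x * (1 - 2 * gQ x)) := by
    refine integrable_gphi_mul_gE.mul_bdd (c := 1) ?_ ?_
    · exact (by have := continuous_gQ; fun_prop : Continuous fun x => 1 - 2 * gQ x).aestronglyMeasurable
    · filter_upwards with x
      rw [Real.norm_eq_abs, abs_le]
      have := gQ_pos x
      have := gQ_lt_one x
      constructor <;> linarith
  have t1 : Tendsto G atTop (𝓝 0) := by
    have hx : Tendsto (fun x => gQ x * Real.log (gQ x)) atTop (𝓝 0) := by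
      have h := (Real.continuous_mul_log.tendsto 0).comp tendsto_gQ_atTop
      simp only [Real.log_zero, mul_zero] at h
      exact h
    have := ((hx.sub tendsto_gQ_atTop).sub (tendsto_gQ_atTop.mul hx)).add ((tendsto_gQ_atTop.pow 2).div_const 2)
    have e : (0 : ℝ) - 0 - 0 * 0 + 0 ^ 2 / 2 = 0 := by norm_num
    rw [e] at this
    exact this
  have t2 : Tendsto G atBot (𝓝 (-1 / 2)) := by
    have hx : Tendsto (fun x => gQ x * Real.log (gQ x)) atBot (𝓝 0) := by
      have h := (Real.continuous_mul_log.tendsto 1).comp tendsto_gQ_atBot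
      simp only [Real.log_one, mul_zero] at h
      exact h
    have := ((hx.sub tendsto_gQ_atBot).sub (tendsto_gQ_atBot.mul hx)).add ((tendsto_gQ_atBot.pow 2).div_const 2)
    have e : (0 : ℝ) - 1 - 1 * 0 + 1 ^ 2 / 2 = -1 / 2 := by norm_num
    rw [e] at this
    exact this
  rw [integral_of_hasDerivAt_of_tendsto hasDerivAt_G hi t2 t1]
  norm_num

lemma integral_f_odd : ∫ x, Real.log (gr x) * (1 - 2 * gQ x) ∂γ = 1 / 2 := by
  have hb : ∀ (g : ℝ → ℝ), Integrable g → Integrable (fun x => g x * (1 - 2 * gQ x)) := by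
    intro g hg
    refine hg.mul_bdd (c := 1) ?_ ?_
    · exact (by have := continuous_gQ; fun_prop : Continuous fun x => 1 - 2 * gQ x).aestronglyMeasurable
    · filter_upwards with x
      rw [Real.norm_eq_abs, abs_le]
      have := gQ_pos x
      have := gQ_lt_one x
      constructor <;> linarith
  have h1 := (integrable_gaussian_iff _).1 integrable_log_gr
  have h2 := (integrable_gaussian_iff _).1 integrable_gE
  have h3 : Integrable (fun x => gphi x * Real.log (gr x) - gphi x * gE x) := h1.sub h2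
  rw [integral_gaussian_eq]
  have e : ∀ x, gphi x * (Real.log (gr x) * (1 - 2 * gQ x)) =
      (gphi x * Real.log (gr x) - gphi x * gE x) * (1 - 2 * gQ x) + gphi x * gE x * (1 - 2 * gQ x) := by
    intro x; ring
  simp only [e]
  rw [integral_add (hb _ h3) (hb _ h2), integral_gE_odd]
  have h0 : ∫ x, (gphi x * Real.log (gr x) - gphi x * gE x) * (1 - 2 * gQ x) = 0 := by
    apply integral_odd
    intro x
    simp only [log_gr, gphi_neg, gQ_neg]
    ring
  rw [h0, zero_add]

/-- indicator of `y < x` -/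
noncomputable def I1 (x y : ℝ) : ℝ := if y < x then 1 else 0

lemma measurable_I1 : Measurable (fun p : ℝ × ℝ => I1 p.1 p.2) := by
  unfold I1
  exact Measurable.ite (measurableSet_lt measurable_snd measurable_fst) measurable_const measurable_const

lemma I1_le (x y : ℝ) : I1 x y ≤ 1 := by unfold I1; split_ifs <;> norm_num
lemma I1_nonneg (x y : ℝ) : 0 ≤ I1 x y := by unfold I1; split_ifs <;> norm_num

lemma abs_eq (x y : ℝ) : |Real.log (gr x) - Real.log (gr y)| =
    Real.log (gr x) * (I1 x y - I1 y x) + Real.log (gr y) * (I1 y x - I1 x y) := by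
  have hm : ∀ a b, a ≤ b → Real.log (gr a) ≤ Real.log (gr b) := fun a b h => Real.log_le_log (gr_pos a) (gr_mono h)
  unfold I1
  rcases lt_trichotomy x y with h | h | h
  · rw [abs_of_nonpos (sub_nonpos.2 (hm _ _ h.le)), if_pos h, if_neg (not_lt.2 h.le)]; ring
  · subst h; simp
  · rw [abs_of_nonneg (sub_nonneg.2 (hm _ _ h.le)), if_pos h, if_neg (not_lt.2 h.le)]; ring

lemma integral_I1_left (x : ℝ) : ∫ y, I1 y x ∂γ = gQ x := by
  have : (fun y => I1 y x) = (Ioi x).indicator (fun _ => (1:ℝ)) := by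
    funext y
    unfold I1
    by_cases h : x < y
    · rw [if_pos h, Set.indicator_of_mem (show y ∈ Ioi x from h)]
    · rw [if_neg h, Set.indicator_of_notMem (show y ∉ Ioi x from h)]
  rw [this]
  exact integral_indicator_one measurableSet_Ioi

lemma integral_I1_right (x : ℝ) : ∫ y, I1 x y ∂γ = 1 - gQ x := by
  have : (fun y => I1 x y) = (Iio x).indicator (fun _ => (1:ℝ)) := by
    funext y
    unfold I1
    by_cases h : y < x
    · rw [if_pos h, Set.indicator_of_mem (show y ∈ Iio x from h)]
    · rw [if_neg h, Set.indicator_of_notMem (show y ∉ Iio x from h)]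
  rw [this]
  refine (integral_indicator_one measurableSet_Iio).trans ?_
  rw [gQ_eq, cdf_eq_real]
  have := nullSingletonClass_gaussianReal (μ := 0) (v := 1) one_ne_zero
  have h2 : γ (Iio x) = γ (Iic x) := measure_congr Iio_ae_eq_Iic
  rw [sub_sub_cancel, measureReal_def, measureReal_def, h2]

lemma integrable_I1_right (x : ℝ) : Integrable (fun y => I1 x y) γ := by
  refine Integrable.of_bound (C := 1) ?_ ?_
  · exact (measurable_I1.comp measurable_prodMk_left).aestronglyMeasurable
  · filter_upwards with y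
    rw [Real.norm_eq_abs, abs_of_nonneg (I1_nonneg _ _)]; exact I1_le _ _

lemma integrable_I1_left (x : ℝ) : Integrable (fun y => I1 y x) γ := by
  refine Integrable.of_bound (C := 1) ?_ ?_
  · exact (measurable_I1.comp measurable_prodMk_right).aestronglyMeasurable
  · filter_upwards with y
    rw [Real.norm_eq_abs, abs_of_nonneg (I1_nonneg _ _)]; exact I1_le _ _

lemma integrable_fI : Integrable (fun p : ℝ × ℝ => Real.log (gr p.1) * (I1 p.1 p.2 - I1 p.2 p.1)) (γ.prod γ) := by
  have h1 : Integrable (fun p : ℝ × ℝ => Real.log (gr p.1)) (γ.prod γ) := integrable_log_gr.comp_fst γ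
  refine h1.mul_bdd (c := 1) ?_ ?_
  · exact (measurable_I1.sub (measurable_I1.comp measurable_swap)).aestronglyMeasurable
  · filter_upwards with p
    rw [Real.norm_eq_abs, abs_le]
    have h1 := I1_nonneg p.1 p.2
    have h2 := I1_nonneg p.2 p.1
    have h3 := I1_le p.1 p.2
    have h4 := I1_le p.2 p.1
    constructor <;> linarith

lemma integral_fI : ∫ p : ℝ × ℝ, Real.log (gr p.1) * (I1 p.1 p.2 - I1 p.2 p.1) ∂(γ.prod γ) = 1 / 2 := by
  rw [integral_prod _ integrable_fI]
  simp only [integral_const_mul]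
  have : ∀ x, ∫ y, (I1 x y - I1 y x) ∂γ = 1 - 2 * gQ x := by
    intro x
    rw [integral_sub (integrable_I1_right x) (integrable_I1_left x), integral_I1_left, integral_I1_right]
    ring
  simp only [this]
  exact integral_f_odd

lemma integrable_fI' : Integrable (fun p : ℝ × ℝ => Real.log (gr p.2) * (I1 p.2 p.1 - I1 p.1 p.2)) (γ.prod γ) :=
  integrable_fI.swap

lemma integral_fI' : ∫ p : ℝ × ℝ, Real.log (gr p.2) * (I1 p.2 p.1 - I1 p.1 p.2) ∂(γ.prod γ) = 1 / 2 := by
  rw [← integral_fI, ← integral_prod_swap]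
  rfl

lemma integrable_abs : Integrable (fun p : ℝ × ℝ => |Real.log (gr p.1) - Real.log (gr p.2)|) (γ.prod γ) := by
  simp only [abs_eq]
  exact integrable_fI.add integrable_fI'

/-- `E |f - f'| = 1` -/
lemma integral_abs : ∫ p : ℝ × ℝ, |Real.log (gr p.1) - Real.log (gr p.2)| ∂(γ.prod γ) = 1 := by
  simp only [abs_eq]
  rw [integral_add integrable_fI integrable_fI', integral_fI, integral_fI']
  norm_num

/-- the ratio function -/
noncomputable def rt (x y : ℝ) : ℝ := if y < x then gr y / gr x else 0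

lemma measurable_rt : Measurable (fun p : ℝ × ℝ => rt p.1 p.2) := by
  unfold rt
  have hm : Measurable gr := continuous_gr.measurable
  exact Measurable.ite (measurableSet_lt measurable_snd measurable_fst)
    ((hm.comp measurable_snd).div (hm.comp measurable_fst)) measurable_const

lemma rt_nonneg (x y : ℝ) : 0 ≤ rt x y := by
  unfold rt
  split_ifs
  · exact (div_pos (gr_pos y) (gr_pos x)).le
  · exact le_rfl

lemma rt_le (x y : ℝ) : rt x y ≤ 1 := by
  unfold rt
  split_ifs with h
  · rw [div_le_one (gr_pos x)]; exact gr_mono h.le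
  · norm_num

lemma rt_exp (x y : ℝ) : rt x y + rt y x ≤ Real.exp (-|Real.log (gr x) - Real.log (gr y)|) := by
  have hm : ∀ a b, a ≤ b → Real.log (gr a) ≤ Real.log (gr b) := fun a b h => Real.log_le_log (gr_pos a) (gr_mono h)
  unfold rt
  rcases lt_trichotomy x y with h | h | h
  · rw [abs_of_nonpos (sub_nonpos.2 (hm _ _ h.le)), if_pos h, if_neg (not_lt.2 h.le), neg_neg, Real.exp_sub,
      Real.exp_log (gr_pos x), Real.exp_log (gr_pos y)]; simp
  · subst h; simp
  · rw [abs_of_nonneg (sub_nonneg.2 (hm _ _ h.le)), if_pos h, if_neg (not_lt.2 h.le), neg_sub, Real.exp_sub,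
      Real.exp_log (gr_pos x), Real.exp_log (gr_pos y)]; simp

lemma integrable_rt : Integrable (fun p : ℝ × ℝ => rt p.1 p.2) (γ.prod γ) := by
  refine Integrable.of_bound (C := 1) measurable_rt.aestronglyMeasurable ?_
  filter_upwards with p
  rw [Real.norm_eq_abs, abs_of_nonneg (rt_nonneg _ _)]; exact rt_le _ _

/-- tail integral of `gQ` -/
lemma tail_gQ (y : ℝ) : IntegrableOn gQ (Ioi y) ∧ ∫ x in Ioi y, gQ x = gphi y - y * gQ y := by
  have hd : ∀ x, HasDerivAt (fun x => x * gQ x - gphi x) (gQ x) x := by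
    intro x
    refine (((hasDerivAt_id x).mul (hasDerivAt_gQ x)).sub (hasDerivAt_gphi x)).congr_deriv ?_
    simp only [id]
    ring
  have hl : Tendsto (fun x => x * gQ x - gphi x) atTop (𝓝 0) := by
    have hx : Tendsto (fun x => x * gQ x) atTop (𝓝 0) := by
      refine tendsto_of_tendsto_of_tendsto_of_le_of_le' tendsto_const_nhds tendsto_gphi_atTop ?_ ?_
      · filter_upwards [eventually_ge_atTop (0:ℝ)] with x hx
        exact mul_nonneg hx (gQ_pos x).le
      · filter_upwards with x using mul_gQ_le x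
    simpa using hx.sub tendsto_gphi_atTop
  have hi : IntegrableOn gQ (Ioi y) :=
    integrableOn_Ioi_deriv_of_nonneg' (fun x _ => hd x) (fun x _ => (gQ_pos x).le) hl
  refine ⟨hi, ?_⟩
  rw [integral_Ioi_of_hasDerivAt_of_tendsto' (fun x _ => hd x) hi hl]
  ring

lemma inner_rt (y : ℝ) : ∫ x, rt x y ∂γ = gr y * (gphi y - y * gQ y) := by
  rw [integral_gaussian_eq, ← (tail_gQ y).2, ← integral_const_mul, ← integral_indicator measurableSet_Ioi]
  apply integral_congr_ae
  filter_upwards with x
  unfold rt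
  by_cases h : y < x
  · rw [if_pos h, Set.indicator_of_mem (show x ∈ Ioi y from h)]
    have h1 := (gphi_pos x).ne'
    have h2 := (gQ_pos x).ne'
    unfold gr
    field_simp
  · rw [if_neg h, Set.indicator_of_notMem (show x ∉ Ioi y from h), mul_zero]

variable (hint : Integrable (fun x => gphi x ^ 3 / (gQ x * (1 - gQ x))))
include hint

lemma integrable_c1 : Integrable (fun x => gphi x ^ 3 / gQ x) := by
  have h : Integrable (fun x => gphi x ^ 3 / (gQ x * (1 - gQ x)) * (1 - gQ x)) := by
    refine hint.mul_bdd (c := 1) ?_ ?_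
    · exact (by have := continuous_gQ; fun_prop : Continuous fun x => 1 - gQ x).aestronglyMeasurable
    · filter_upwards with x
      rw [Real.norm_eq_abs, abs_le]
      have := gQ_pos x
      have := gQ_lt_one x
      constructor <;> linarith
  refine h.congr ?_
  filter_upwards with x
  have h1 := (gQ_pos x).ne'
  have h2 : 1 - gQ x ≠ 0 := by have := gQ_lt_one x; exact (sub_pos.2 this).ne'
  field_simp

lemma integral_c1 : 2 * ∫ x, gphi x ^ 3 / gQ x = ∫ x, gphi x ^ 3 / (gQ x * (1 - gQ x)) := by
  have h1 := integrable_c1 hint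
  have h2 : Integrable (fun x => gphi x ^ 3 / (1 - gQ x)) := by
    have := h1.comp_neg
    refine this.congr ?_
    filter_upwards with x
    rw [gphi_neg, gQ_neg]
  have h3 : ∫ x, gphi x ^ 3 / (1 - gQ x) = ∫ x, gphi x ^ 3 / gQ x := by
    rw [← integral_neg_eq_self (fun x => gphi x ^ 3 / gQ x) volume]
    simp only [gphi_neg, gQ_neg]
  have h4 : ∀ x, gphi x ^ 3 / (gQ x * (1 - gQ x)) = gphi x ^ 3 / gQ x + gphi x ^ 3 / (1 - gQ x) := by
    intro x
    have h1 := (gQ_pos x).ne'
    have h2 : 1 - gQ x ≠ 0 := by have := gQ_lt_one x; exact (sub_pos.2 this).ne'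
    field_simp
    ring
  simp only [h4]
  rw [integral_add h1 h2, h3]
  ring

lemma integral_rt : 2 * ∫ p : ℝ × ℝ, rt p.1 p.2 ∂(γ.prod γ) = ∫ x, gphi x ^ 3 / (gQ x * (1 - gQ x)) := by
  rw [integral_prod_symm _ integrable_rt]
  simp only [inner_rt]
  rw [← integral_c1 hint, integral_gaussian_eq]
  congr 1
  have e : ∀ y, gphi y * (gr y * (gphi y - y * gQ y)) = gphi y ^ 3 / gQ y - y * gphi y ^ 2 := by
    intro y
    have h1 := (gQ_pos y).ne'
    unfold gr
    field_simp
  simp only [e]
  have hsq : Integrable (fun y => y * gphi y ^ 2) := by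
    have h1 : Integrable (fun y : ℝ => gphi y * y) := by
      rw [← integrable_gaussian_iff]
      exact (memLp_id_gaussianReal (μ := 0) (v := 1) 1).integrable le_rfl
    have h2 : Integrable (fun y : ℝ => gphi y * y * gphi y) := by
      refine h1.mul_bdd (c := (√(2 * Real.pi))⁻¹) continuous_gphi.aestronglyMeasurable ?_
      filter_upwards with x
      rw [Real.norm_eq_abs, abs_of_pos (gphi_pos x), gphi_eq]
      apply mul_le_of_le_one_right (by positivity)
      rw [Real.exp_le_one_iff]
      nlinarith [sq_nonneg x]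
    refine h2.congr ?_
    filter_upwards with x
    ring
  rw [integral_sub (integrable_c1 hint) hsq]
  have h0 : ∫ y, y * gphi y ^ 2 = 0 := by
    apply integral_odd
    intro x
    rw [gphi_neg]; ring
  rw [h0, sub_zero]

/-- (i) + (ii) -/
theorem gam0_ge_integral : ∫ x, gphi x ^ 3 / (gQ x * (1 - gQ x)) ≤ gam0 := by
  have hexp : Integrable (fun p : ℝ × ℝ => Real.exp (-|Real.log (gr p.1) - Real.log (gr p.2)|)) (γ.prod γ) := by
    refine Integrable.of_bound (C := 1) ?_ ?_
    · have hm : Measurable gr := continuous_gr.measurable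
      have h1 : Measurable (fun p : ℝ × ℝ => Real.log (gr p.1) - Real.log (gr p.2)) :=
        ((Real.measurable_log.comp (hm.comp measurable_fst)).sub (Real.measurable_log.comp (hm.comp measurable_snd)))
      exact (Real.measurable_exp.comp (h1.abs.neg)).aestronglyMeasurable
    · filter_upwards with p
      rw [Real.norm_eq_abs, abs_of_pos (Real.exp_pos _), Real.exp_le_one_iff]
      have := abs_nonneg (Real.log (gr p.1) - Real.log (gr p.2))
      linarith
  have hk : Integrable (fun p : ℝ × ℝ => kap (Real.log (gr p.1) - Real.log (gr p.2))) (γ.prod γ) := by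
    unfold kap
    exact (integrable_abs.sub (integrable_const _)).add hexp
  have h1 : gam0 = ∫ p : ℝ × ℝ, kap (Real.log (gr p.1) - Real.log (gr p.2)) ∂(γ.prod γ) := by
    rw [integral_prod _ hk]
    rfl
  rw [h1]
  unfold kap
  have h5 : Integrable (fun p : ℝ × ℝ => |Real.log (gr p.1) - Real.log (gr p.2)| - 1) (γ.prod γ) :=
    integrable_abs.sub (integrable_const _)
  rw [integral_add h5 hexp, integral_sub integrable_abs (integrable_const _), integral_abs]
  have h2 : ∫ p : ℝ × ℝ, (rt p.1 p.2 + rt p.2 p.1) ∂(γ.prod γ) ≤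
      ∫ p : ℝ × ℝ, Real.exp (-|Real.log (gr p.1) - Real.log (gr p.2)|) ∂(γ.prod γ) :=
    integral_mono (integrable_rt.add integrable_rt.swap) hexp (fun p => rt_exp p.1 p.2)
  have h3 : ∫ p : ℝ × ℝ, rt p.2 p.1 ∂(γ.prod γ) = ∫ p : ℝ × ℝ, rt p.1 p.2 ∂(γ.prod γ) := by
    rw [← integral_prod_swap]
    rfl
  have h4 : ∫ p : ℝ × ℝ, (rt p.1 p.2 + rt p.2 p.1) ∂(γ.prod γ) =
      ∫ p : ℝ × ℝ, rt p.1 p.2 ∂(γ.prod γ) + ∫ p : ℝ × ℝ, rt p.2 p.1 ∂(γ.prod γ) :=
    integral_add integrable_rt integrable_rt.swap
  rw [← integral_rt hint]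
  simp only [integral_const, probReal_univ, smul_eq_mul, mul_one]
  linarith

omit hint in
/-- `√2/π ≤ gam0` -/
theorem gam0_ge : Real.sqrt 2 / Real.pi ≤ gam0 :=
  int_cube_ge.trans (gam0_ge_integral integrable_cube)

end Fil27.Gam
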