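import Mathlib
import Pool.Agent.helper27.Fil.Defs

/-!
Reduction of Filliman's lower bound (MP_3bca80_gt, Q1) to the cone theorem.
-/

namespace Fil27.Red
open MeasureTheory
open scoped Pointwise RealInnerProductSpace

lemma lint_pow_exp (k : ℕ) :
    ∫⁻ t in Set.Ioi (0:ℝ), ENNReal.ofReal (Real.exp (-t)) * ENNReal.ofReal (t ^ k)
      = (k.factorial : ENNReal) := by
  have h1 : ∀ t ∈ Set.Ioi (0:ℝ), ENNReal.ofReal (Real.exp (-t)) * ENNReal.ofReal (t ^ k)
      = ENNReal.ofReal (Real.exp (-t) * t ^ (((k:ℝ) + 1) - 1)) := by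
    intro t ht
    rw [← ENNReal.ofReal_mul (Real.exp_pos _).le]
    congr 2
    simp [Real.rpow_natCast]
  rw [setLIntegral_congr_fun measurableSet_Ioi h1]
  have hk : (0:ℝ) < (k:ℝ) + 1 := by positivity
  rw [← ofReal_integral_eq_lintegral_ofReal (Real.GammaIntegral_convergent hk)]
  · rw [← Real.Gamma_eq_integral hk, Real.Gamma_nat_eq_factorial]
    simp
  · filter_upwards [self_mem_ae_restrict measurableSet_Ioi] with t ht
    have : (0:ℝ) < t := ht
    positivity

lemma cone_pi {k : ℕ} (K : Set (Fin k → ℝ)) (hK : IsCompact K) :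
    ∫⁻ y in {y : Fin (k+1) → ℝ | 0 < y 0 ∧ (y 0)⁻¹ • Fin.tail y ∈ K},
      ENNReal.ofReal (Real.exp (-(y 0))) = (k.factorial : ENNReal) * volume K := by
  have he := volume_preserving_piFinSuccAbove (fun _ : Fin (k+1) => ℝ) 0
  set e := MeasurableEquiv.piFinSuccAbove (fun _ : Fin (k+1) => ℝ) 0 with hedef
  set S : Set (ℝ × (Fin k → ℝ)) := {p | 0 < p.1 ∧ p.1⁻¹ • p.2 ∈ K} with hS
  have hpre : {y : Fin (k+1) → ℝ | 0 < y 0 ∧ (y 0)⁻¹ • Fin.tail y ∈ K} = e ⁻¹' S := by
    ext y
    rfl
  have hSm : MeasurableSet S := by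
    apply MeasurableSet.inter
    · exact measurableSet_lt measurable_const measurable_fst
    · have hm : Measurable (fun p : ℝ × (Fin k → ℝ) => p.1⁻¹ • p.2) := by fun_prop
      exact hm hK.measurableSet
  have h1 : ∫⁻ y in e ⁻¹' S, ENNReal.ofReal (Real.exp (-(y 0)))
      = ∫⁻ p in S, ENNReal.ofReal (Real.exp (-p.1)) ∂(volume.prod volume) := by
    have := he.setLIntegral_comp_preimage (f := fun p : ℝ × (Fin k → ℝ) => ENNReal.ofReal (Real.exp (-p.1))) hSm (by fun_prop)
    exact this
  rw [hpre, h1, ← lintegral_indicator hSm, lintegral_prod _ (Measurable.aemeasurable (Measurable.indicator (by fun_prop) hSm))]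
  have h2 : ∀ t : ℝ, ∫⁻ u, S.indicator (fun p : ℝ × (Fin k → ℝ) => ENNReal.ofReal (Real.exp (-p.1))) (t, u)
      = (Set.Ioi (0:ℝ)).indicator (fun t => ENNReal.ofReal (Real.exp (-t)) * ENNReal.ofReal (t^k) * volume K) t := by
    intro t
    by_cases ht : 0 < t
    · rw [Set.indicator_of_mem (show t ∈ Set.Ioi (0:ℝ) from ht)]
      have h3 : ∀ u, S.indicator (fun p : ℝ × (Fin k → ℝ) => ENNReal.ofReal (Real.exp (-p.1))) (t, u)
          = (t • K).indicator (fun _ => ENNReal.ofReal (Real.exp (-t))) u := by
        intro u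
        have : (t,u) ∈ S ↔ u ∈ t • K := by
          simp only [hS, Set.mem_ofPred_eq, ht, true_and]
          rw [Set.mem_smul_set_iff_inv_smul_mem₀ ht.ne']
        by_cases hu : u ∈ t • K
        · rw [Set.indicator_of_mem (this.2 hu), Set.indicator_of_mem hu]
        · rw [Set.indicator_of_notMem (fun h => hu (this.1 h)), Set.indicator_of_notMem hu]
      simp_rw [h3]
      rw [lintegral_indicator (hK.smul t).measurableSet]
      rw [lintegral_const, Measure.restrict_apply_univ, Measure.addHaar_smul_of_nonneg _ ht.le]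
      simp [mul_assoc]
    · rw [Set.indicator_of_notMem (show t ∉ Set.Ioi (0:ℝ) from ht)]
      rw [lintegral_eq_zero_iff']
      · apply Filter.Eventually.of_forall
        intro u
        apply Set.indicator_of_notMem
        intro h
        exact ht h.1
      · exact ((Measurable.indicator (by fun_prop) hSm).comp measurable_prodMk_left).aemeasurable
  simp_rw [h2]
  rw [lintegral_indicator measurableSet_Ioi, lintegral_mul_const _ (by fun_prop), lint_pow_exp]

lemma mem_hull {ι E : Type*} [Fintype ι] [AddCommGroup E] [Module ℝ E] (x : ι → E) (y : E) :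
    y ∈ convexHull ℝ (Set.range x) ↔ ∃ w : ι → ℝ, (∀ i, 0 ≤ w i) ∧ ∑ i, w i = 1 ∧ ∑ i, w i • x i = y := by
  classical
  constructor
  · intro hy
    have hsub : convexHull ℝ (Set.range x) ⊆
        {y | ∃ w : ι → ℝ, (∀ i, 0 ≤ w i) ∧ ∑ i, w i = 1 ∧ ∑ i, w i • x i = y} := by
      apply convexHull_min
      · rintro _ ⟨i, rfl⟩
        refine ⟨fun j => if j = i then 1 else 0, ?_, ?_, ?_⟩
        · intro j; dsimp only; split_ifs <;> norm_num
        · simp
        · simp
      · rintro a ⟨w, hw0, hw1, rfl⟩ b ⟨u, hu0, hu1, rfl⟩ s t hs ht hst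
        refine ⟨fun i => s * w i + t * u i, ?_, ?_, ?_⟩
        · intro i
          have := hw0 i
          have := hu0 i
          positivity
        · rw [Finset.sum_add_distrib, ← Finset.mul_sum, ← Finset.mul_sum, hw1, hu1]
          simpa using hst
        · simp only [add_smul, Finset.sum_add_distrib, mul_smul, Finset.smul_sum]
    exact hsub hy
  · rintro ⟨w, hw0, hw1, rfl⟩
    exact mem_convexHull_of_exists_fintype w x hw0 hw1 (fun i => ⟨i, rfl⟩) rfl

/-- the point `(1,x)` -/
noncomputable def lift {k : ℕ} (x : V k) : V (k+1) := WithLp.toLp 2 (Fin.cons 1 x.ofLp : Fin (k+1) → ℝ)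

@[simp] lemma lift_zero {k : ℕ} (x : V k) : lift x 0 = 1 := rfl
@[simp] lemma lift_succ {k : ℕ} (x : V k) (i : Fin k) : lift x i.succ = x i := rfl

/-- the first coordinate -/
noncomputable def h0 (k : ℕ) : V (k+1) →ₗ[ℝ] ℝ := (EuclideanSpace.proj (0 : Fin (k+1)) : V (k+1) →L[ℝ] ℝ).toLinearMap

@[simp] lemma h0_apply {k : ℕ} (y : V (k+1)) : h0 k y = y 0 := rfl

lemma cone_ae {ι : Type*} [Fintype ι] {k : ℕ} (x : ι → V k) :
    (WithLp.toLp 2 : (Fin (k+1) → ℝ) → V (k+1)) ⁻¹' (coneOf fun i => lift (x i)) =ᵐ[volume]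
    {y : Fin (k+1) → ℝ | 0 < y 0 ∧ (y 0)⁻¹ • Fin.tail y ∈
      convexHull ℝ (Set.range fun i => (x i).ofLp)} := by
  have hz : (volume : Measure (Fin (k+1) → ℝ)) {0} = 0 := measure_singleton _
  have h0 : ∀ᵐ y : Fin (k+1) → ℝ, y ≠ 0 := by
    rw [ae_iff]; simp
  filter_upwards [h0] with y hy
  apply propext
  constructor
  · rintro ⟨a, ha, hya⟩
    have e0 : y 0 = ∑ i, a i := by
      have := congrArg (fun u : V (k+1) => u 0) hya
      simpa using this
    have e1 : ∀ j : Fin k, y j.succ = ∑ i, a i * x i j := by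
      intro j
      have := congrArg (fun u : V (k+1) => u j.succ) hya
      simpa using this
    have hpos : 0 < y 0 := by
      rcases (Finset.sum_nonneg (fun i _ => ha i)).lt_or_eq with h | h
      · rw [e0]; exact h
      · exfalso
        have ha0 : ∀ i, a i = 0 := by
          intro i
          exact (Finset.sum_eq_zero_iff_of_nonneg (fun i _ => ha i)).1 h.symm i (Finset.mem_univ i)
        apply hy
        funext j
        refine Fin.cases ?_ (fun j => ?_) j
        · rw [e0, ← h]; rfl
        · rw [e1]; simp [ha0]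
    refine ⟨hpos, ?_⟩
    rw [mem_hull]
    refine ⟨fun i => (y 0)⁻¹ * a i, fun i => mul_nonneg (inv_nonneg.2 hpos.le) (ha i), ?_, ?_⟩
    · rw [← Finset.mul_sum, ← e0, inv_mul_cancel₀ hpos.ne']
    · funext j
      simp only [Finset.sum_apply, Pi.smul_apply, smul_eq_mul, Fin.tail, e1, Finset.mul_sum, mul_assoc]
  · rintro ⟨hpos, hm⟩
    rw [mem_hull] at hm
    obtain ⟨w, hw0, hw1, hw2⟩ := hm
    refine ⟨fun i => y 0 * w i, fun i => mul_nonneg hpos.le (hw0 i), ?_⟩
    ext j
    refine Fin.cases ?_ (fun j => ?_) j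
    · simp [← Finset.mul_sum, hw1]
    · have := congrFun hw2 j
      simp only [Finset.sum_apply, Pi.smul_apply, smul_eq_mul, Fin.tail] at this
      simp only [WithLp.ofLp_sum, WithLp.ofLp_smul, Finset.sum_apply, Pi.smul_apply,
        lift_succ, smul_eq_mul, mul_assoc, ← Finset.mul_sum]
      rw [this, mul_inv_cancel_left₀ hpos.ne']

lemma isCompact_hull {ι : Type*} [Finite ι] {k : ℕ} (x : ι → (Fin k → ℝ)) :
    IsCompact (convexHull ℝ (Set.range x)) := (Set.finite_range x).isCompact_convexHull (𝕜 := ℝ)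

lemma volume_hull_ofLp {ι : Type*} [Finite ι] {k : ℕ} (x : ι → V k) :
    volume (convexHull ℝ (Set.range fun i => (x i).ofLp)) = volume (convexHull ℝ (Set.range x)) := by
  have h := (PiLp.volume_preserving_toLp (Fin k)).measure_preimage_emb
    (MeasurableEquiv.toLp 2 (Fin k → ℝ)).measurableEmbedding (convexHull ℝ (Set.range x))
  rw [← h]
  congr 1
  have : (WithLp.toLp 2 : (Fin k → ℝ) → V k) ⁻¹' (convexHull ℝ (Set.range x))
      = (WithLp.linearEquiv 2 ℝ (Fin k → ℝ)).toLinearMap '' (convexHull ℝ (Set.range x)) := by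
    ext y
    constructor
    · intro hy
      exact ⟨_, hy, rfl⟩
    · rintro ⟨u, hu, rfl⟩
      exact hu
  rw [this, LinearMap.image_convexHull, ← Set.range_comp]
  rfl

/-- `k! vol(K) = ∫_cone exp(-h)` -/
theorem coneInt_lift {ι : Type*} [Fintype ι] {k : ℕ} (x : ι → V k) :
    coneInt (h0 k) (fun i => lift (x i)) = (k.factorial : ENNReal) * volume (convexHull ℝ (Set.range x)) := by
  rw [← volume_hull_ofLp, ← cone_pi _ (isCompact_hull _), ← setLIntegral_congr (cone_ae x)]
  unfold coneInt
  rw [← (PiLp.volume_preserving_toLp (Fin (k+1))).setLIntegral_comp_preimage_emb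
    (MeasurableEquiv.toLp 2 (Fin (k+1) → ℝ)).measurableEmbedding]
  rfl

section simplex
variable {n : ℕ} (v : Fin (n+1) → V n)

/-- centroid -/
noncomputable def cen : V n := ((n:ℝ)+1)⁻¹ • ∑ i, v i
/-- centered vertices -/
noncomputable def cv (i : Fin (n+1)) : V n := v i - cen v

lemma sum_cv : ∑ i, cv v i = 0 := by
  unfold cv cen
  rw [Finset.sum_sub_distrib, Finset.sum_const, Finset.card_univ, Fintype.card_fin, ← Nat.cast_smul_eq_nsmul ℝ,
    smul_smul]
  push_cast
  rw [mul_inv_cancel₀ (by positivity), one_smul, sub_self]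

variable (hv : ∀ i j, i ≠ j → dist (v i) (v j) = Real.sqrt 2)
include hv

lemma cv_dist (i j : Fin (n+1)) (hij : i ≠ j) : ‖cv v i‖^2 + ‖cv v j‖^2 - 2 * ⟪cv v i, cv v j⟫ = 2 := by
  have h := hv i j hij
  rw [dist_eq_norm] at h
  have h2 : ‖cv v i - cv v j‖^2 = 2 := by
    have : cv v i - cv v j = v i - v j := by unfold cv; abel
    rw [this, h, Real.sq_sqrt (by norm_num)]
  rw [norm_sub_sq_real] at h2
  linarith

lemma cv_inner (i j : Fin (n+1)) : ⟪cv v i, cv v j⟫ = (if i = j then 1 else 0) - ((n:ℝ)+1)⁻¹ := by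
  classical
  have key : ∀ i j, ‖cv v i‖^2 + ‖cv v j‖^2 - 2 * ⟪cv v i, cv v j⟫ = if i = j then 0 else 2 := by
    intro i j
    split_ifs with h
    · subst h
      rw [real_inner_self_eq_norm_sq]; ring
    · exact cv_dist v hv i j h
  have hn : ((n:ℝ)+1) ≠ 0 := by positivity
  have s1 : ∀ i, ((n:ℝ)+1) * ‖cv v i‖^2 + ∑ j, ‖cv v j‖^2 = 2 * n := by
    intro i
    have h := Finset.sum_congr (rfl : (Finset.univ : Finset (Fin (n+1))) = Finset.univ) (fun j _ => key i j)
    rw [Finset.sum_sub_distrib, Finset.sum_add_distrib, Finset.sum_const, Finset.card_univ, Fintype.card_fin,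
      ← Finset.mul_sum, ← inner_sum, sum_cv, inner_zero_right] at h
    have h3 : ∑ j : Fin (n+1), (if i = j then (0:ℝ) else 2) = 2 * n := by
      rw [Finset.sum_ite]
      simp only [Finset.sum_const_zero, zero_add, Finset.sum_const]
      have : (Finset.univ.filter (fun j : Fin (n+1) => ¬ i = j)).card = n := by
        have h4 : Finset.univ.filter (fun j : Fin (n+1) => ¬ i = j) = Finset.univ.erase i := by
          ext j; simp [eq_comm]
        rw [h4, Finset.card_erase_of_mem (Finset.mem_univ _)]; simp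
      rw [this]; simp [mul_comm]
    rw [h3] at h
    rw [nsmul_eq_mul] at h
    push_cast at h
    linarith
  have s2 : ∑ j, ‖cv v j‖^2 = n := by
    have h := Finset.sum_congr (rfl : (Finset.univ : Finset (Fin (n+1))) = Finset.univ) (fun i _ => s1 i)
    rw [Finset.sum_add_distrib, ← Finset.mul_sum, Finset.sum_const, Finset.sum_const, Finset.card_univ,
      Fintype.card_fin, nsmul_eq_mul, nsmul_eq_mul] at h
    push_cast at h
    have h5 : ((n:ℝ)+1) * (2 * ∑ j, ‖cv v j‖^2) = ((n:ℝ)+1) * (2 * n) := by linarith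
    have := mul_left_cancel₀ hn h5
    linarith
  have s3 : ∀ i, ‖cv v i‖^2 = 1 - ((n:ℝ)+1)⁻¹ := by
    intro i
    have := s1 i
    rw [s2] at this
    field_simp
    linarith
  have := key i j
  rw [s3, s3] at this
  split_ifs at this ⊢ with h
  · linarith
  · linarith

lemma affInd : AffineIndependent ℝ v := by
  rw [affineIndependent_iff]
  intro s w hw0 hw1 j hj
  have h1 : ∑ i ∈ s, w i • cv v i = 0 := by
    unfold cv
    simp only [smul_sub, Finset.sum_sub_distrib, ← Finset.sum_smul]
    have : s.sum w = 0 := hw0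
    rw [this, hw1]; simp
  have h2 : ⟪∑ i ∈ s, w i • cv v i, cv v j⟫ = 0 := by rw [h1, inner_zero_left]
  rw [sum_inner] at h2
  simp only [inner_smul_left, cv_inner v hv, mul_sub, Finset.sum_sub_distrib, ← Finset.sum_mul] at h2
  simp at h2
  rw [if_pos hj] at h2
  have : s.sum w = 0 := hw0
  rw [this] at h2
  simpa using h2

lemma span_top : vectorSpan ℝ (Set.range v) = ⊤ := by
  apply (affInd v hv).vectorSpan_eq_top_of_card_eq_finrank_add_one
  simp

lemma frame_id (y : V n) : ∑ i, ⟪cv v i, y⟫ • cv v i = y := by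
  have hy : y ∈ vectorSpan ℝ (Set.range v) := by rw [span_top v hv]; trivial
  rw [vectorSpan_def] at hy
  have hcv : ∀ j, ∑ i, ⟪cv v i, cv v j⟫ • cv v i = cv v j := by
    intro j
    simp only [cv_inner v hv, sub_smul, Finset.sum_sub_distrib, ← Finset.smul_sum, sum_cv]
    simp
  induction hy using Submodule.span_induction with
  | mem x hx =>
    obtain ⟨_, ⟨a, rfl⟩, _, ⟨b, rfl⟩, rfl⟩ := hx
    have : v a -ᵥ v b = cv v a - cv v b := by unfold cv; simp
    dsimp only
    rw [this]
    simp only [inner_sub_right, sub_smul, Finset.sum_sub_distrib, hcv]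
  | zero => simp
  | add x y _ _ hx hy => simp only [inner_add_right, add_smul, Finset.sum_add_distrib, hx, hy]
  | smul r x _ hx =>
    simp only [inner_smul_right, mul_smul, ← Finset.smul_sum, hx]

lemma frame_inner (a b : V n) : ∑ i, ⟪cv v i, a⟫ * ⟪cv v i, b⟫ = ⟪a, b⟫ := by
  conv_rhs => rw [← frame_id v hv a]
  rw [sum_inner]
  simp [inner_smul_left]

lemma frame_inner' (a b : V n) : ∑ i, ⟪v i, a⟫ * ⟪v i, b⟫ = ⟪a, b⟫ + ((n:ℝ)+1) * (⟪cen v, a⟫ * ⟪cen v, b⟫) := by
  rw [← frame_inner v hv a b]
  have hs : ∀ a, ∑ i, ⟪cv v i, a⟫ = 0 := by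
    intro a
    rw [← sum_inner, sum_cv, inner_zero_left]
  have : ∀ i, ⟪v i, a⟫ * ⟪v i, b⟫ = ⟪cv v i, a⟫ * ⟪cv v i, b⟫ + ⟪cv v i, a⟫ * ⟪cen v, b⟫ + ⟪cen v, a⟫ * ⟪cv v i, b⟫
      + ⟪cen v, a⟫ * ⟪cen v, b⟫ := by
    intro i
    have h : v i = cv v i + cen v := by unfold cv; abel
    conv_lhs => rw [h]
    rw [inner_add_left, inner_add_left]; ring
  simp only [this, Finset.sum_add_distrib, ← Finset.sum_mul, ← Finset.mul_sum, hs]
  simp
  ring

end simplex

section proj
variable {n k : ℕ} (v : Fin (n+1) → V n) (E : Submodule ℝ (V n)) (hE : Module.finrank ℝ E = k)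

/-- an orthonormal basis of the subspace -/
noncomputable def onb : OrthonormalBasis (Fin k) ℝ E := (stdOrthonormalBasis ℝ E).reindex (finCongr hE)

/-- coordinates of the projection -/
noncomputable def xco (i : Fin (n+1)) : V k := (onb E hE).repr (E.orthogonalProjectionOnto (v i))

lemma xco_apply (i : Fin (n+1)) (j : Fin k) : xco v E hE i j = ⟪v i, ((onb E hE j : E) : V n)⟫ := by
  unfold xco
  rw [OrthonormalBasis.repr_apply_apply, Submodule.inner_orthogonalProjectionOnto_eq_of_mem_left]
  rw [real_inner_comm]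

lemma vol_proj : volume (E.orthogonalProjectionOnto '' convexHull ℝ (Set.range v)) =
    volume (convexHull ℝ (Set.range (xco v E hE))) := by
  have h1 := ((onb E hE).measurePreserving_repr).measure_preimage_emb
    (onb E hE).repr.toHomeomorph.measurableEmbedding ((onb E hE).repr '' (E.orthogonalProjectionOnto '' convexHull ℝ (Set.range v)))
  rw [Set.preimage_image_eq _ (onb E hE).repr.injective] at h1
  rw [h1]
  congr 1
  have h2 : (E.orthogonalProjectionOnto '' convexHull ℝ (Set.range v)) =
     E.orthogonalProjectionOnto.toLinearMap '' convexHull ℝ (Set.range v) := rfl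
  rw [h2, LinearMap.image_convexHull]
  have h3 : ∀ s : Set E, (onb E hE).repr '' s = (onb E hE).repr.toLinearEquiv.toLinearMap '' s := fun s => rfl
  rw [h3, LinearMap.image_convexHull, ← Set.range_comp, ← Set.range_comp]
  rfl

variable (hv : ∀ i j, i ≠ j → dist (v i) (v j) = Real.sqrt 2)
include hv

/-- lower triangular matrix -/
noncomputable def Lm (a : Fin k → ℝ) : Matrix (Fin (k+1)) (Fin (k+1)) ℝ :=
  Matrix.of fun i j => (Fin.cons (Fin.cons 1 0 : Fin (k+1) → ℝ) (fun p => (Fin.cons (a p) (Pi.single p 1) : Fin (k+1) → ℝ)) : Fin (k+1) → Fin (k+1) → ℝ) i j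

omit hv in
lemma det_Lm (a : Fin k → ℝ) : (Lm a).det = 1 := by
  rw [Matrix.det_of_isLowerTriangular]
  · rw [Fin.prod_univ_succ]
    simp [Lm]
  · intro i j hij
    have hij : i < j := hij
    induction j using Fin.cases with
    | zero => exact absurd hij (Fin.not_lt_zero i)
    | succ j =>
      induction i using Fin.cases with
      | zero => simp [Lm]
      | succ i =>
        have : i < j := by simpa using hij
        simp [Lm, this.ne']

lemma det_frame : Matrix.det (frameM (fun _ => 1) (fun i => lift (xco v E hE i))) = (n:ℝ)+1 := by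
  set m : Fin k → ℝ := fun j => ⟪cen v, ((onb E hE j : E) : V n)⟫ with hm
  have hM : frameM (fun _ => 1) (fun i => lift (xco v E hE i)) =
      Lm m * Matrix.diagonal (Fin.cons ((n:ℝ)+1) 1 : Fin (k+1) → ℝ) * (Lm m).transpose := by
    have hs : ∀ j, ∑ i, xco v E hE i j = ((n:ℝ)+1) * m j := by
      intro j
      simp only [xco_apply, hm]
      rw [← sum_inner]
      unfold cen
      rw [inner_smul_left]
      simp only [conj_trivial]
      rw [mul_inv_cancel_left₀ (by positivity)]
    ext a b
    rw [Matrix.mul_apply, Fin.sum_univ_succ]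
    simp only [frameM, Matrix.of_apply, Matrix.mul_diagonal, Matrix.transpose_apply, one_mul]
    induction a using Fin.cases with
    | zero =>
      induction b using Fin.cases with
      | zero => simp [Lm]
      | succ b => simp [Lm, hs]
    | succ a =>
      induction b using Fin.cases with
      | zero => simp [Lm, hs]; ring
      | succ b =>
        simp only [lift_succ, xco_apply]
        rw [frame_inner' v hv]
        have ho : ⟪((onb E hE a : E) : V n), ((onb E hE b : E) : V n)⟫ = if a = b then (1:ℝ) else 0 := by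
          have := (onb E hE).orthonormal
          rw [orthonormal_iff_ite] at this
          rw [← this a b]; rfl
        rw [ho]
        simp [Lm, hm, Pi.single_apply]
        split_ifs with h1 h2 h2
        · ring
        · exact absurd h1.symm h2
        · exact absurd h2.symm h1
        · ring
  rw [hM, Matrix.det_mul, Matrix.det_mul, Matrix.det_transpose, det_Lm, Matrix.det_diagonal, Fin.prod_univ_succ]
  simp

end proj

section blocks
variable {n k : ℕ} (v : Fin (n+1) → V n) (c : Fin (n+1) → Fin (k+1))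

/-- span of the differences inside the blocks -/
def Wsp : Submodule ℝ (V n) := Submodule.span ℝ {x | ∃ i j, c i = c j ∧ x = v i - v j}

variable (hspan : vectorSpan ℝ (Set.range v) = ⊤) (hc : Function.Surjective c)
include hc

lemma finrank_W_le : Module.finrank ℝ (Wsp v c) ≤ n - k := by
  classical
  obtain ⟨rep, hrep⟩ := hc.hasRightInverse
  set S : Finset (V n) := ((Finset.univ : Finset (Fin (n+1))) \ (Finset.univ.image rep)).image
    (fun i => v i - v (rep (c i))) with hS
  have hle : Wsp v c ≤ Submodule.span ℝ (S : Set (V n)) := by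
    have hmem : ∀ i, v i - v (rep (c i)) ∈ Submodule.span ℝ (S : Set (V n)) := by
      intro i
      by_cases hi : i ∈ Finset.univ.image rep
      · rw [Finset.mem_image] at hi
        obtain ⟨a, -, rfl⟩ := hi
        rw [hrep a, sub_self]; exact Submodule.zero_mem _
      · apply Submodule.subset_span
        rw [hS]
        simp only [Finset.coe_image, Set.mem_image, Finset.mem_coe]
        exact ⟨i, by simp only [Finset.mem_sdiff, Finset.mem_univ, true_and]; exact hi, rfl⟩
    unfold Wsp
    rw [Submodule.span_le]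
    rintro _ ⟨i, j, hij, rfl⟩
    have : v i - v j = (v i - v (rep (c i))) - (v j - v (rep (c j))) := by rw [hij]; abel
    rw [this]
    exact Submodule.sub_mem _ (hmem i) (hmem j)
  calc Module.finrank ℝ (Wsp v c) ≤ Module.finrank ℝ (Submodule.span ℝ (S : Set (V n))) :=
        Submodule.finrank_mono hle
    _ ≤ S.card := finrank_span_finset_le_card S
    _ ≤ ((Finset.univ : Finset (Fin (n+1))) \ (Finset.univ.image rep)).card := Finset.card_image_le
    _ = n - k := by
      rw [Finset.card_sdiff_of_subset (Finset.subset_univ _), Finset.card_image_of_injective _ hrep.injective]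
      simp

include hspan
lemma finrank_W_ge : n ≤ Module.finrank ℝ (Wsp v c) + k := by
  classical
  obtain ⟨rep, hrep⟩ := hc.hasRightInverse
  set S : Finset (V n) := (Finset.univ : Finset (Fin k)).image (fun a => v (rep a.succ) - v (rep 0)) with hS
  have htop : Wsp v c ⊔ Submodule.span ℝ (S : Set (V n)) = ⊤ := by
    rw [eq_top_iff, ← hspan, vectorSpan_def, Submodule.span_le]
    rintro _ ⟨_, ⟨i, rfl⟩, _, ⟨j, rfl⟩, rfl⟩
    have h1 : ∀ i, v i - v (rep (c i)) ∈ Wsp v c ⊔ Submodule.span ℝ (S : Set (V n)) := by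
      intro i
      apply Submodule.mem_sup_left
      apply Submodule.subset_span
      exact ⟨i, rep (c i), (hrep (c i)).symm, rfl⟩
    have h2 : ∀ a, v (rep a) - v (rep 0) ∈ Wsp v c ⊔ Submodule.span ℝ (S : Set (V n)) := by
      intro a
      apply Submodule.mem_sup_right
      induction a using Fin.cases with
      | zero => rw [sub_self]; exact Submodule.zero_mem _
      | succ a =>
        apply Submodule.subset_span
        rw [hS]
        simp
    have : (fun x1 x2 => x1 -ᵥ x2) (v i) (v j) = (v i - v (rep (c i))) + (v (rep (c i)) - v (rep 0))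
        - (v j - v (rep (c j))) - (v (rep (c j)) - v (rep 0)) := by
      simp only [vsub_eq_sub]; abel
    rw [this]
    exact Submodule.sub_mem _ (Submodule.sub_mem _ (Submodule.add_mem _ (h1 _) (h2 _)) (h1 _)) (h2 _)
  have h3 := Submodule.finrank_add_le_finrank_add_finrank (Wsp v c) (Submodule.span ℝ (S : Set (V n)))
  rw [htop, finrank_top, finrank_euclideanSpace, Fintype.card_fin] at h3
  have h4 : Module.finrank ℝ (Submodule.span ℝ (S : Set (V n))) ≤ k := by
    refine (finrank_span_finset_le_card S).trans (Finset.card_image_le.trans ?_)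
    simp
  omega

lemma finrank_Wperp (hkn : k ≤ n) : Module.finrank ℝ (Wsp v c)ᗮ = k := by
  have h1 := finrank_W_le v c hc
  have h2 := finrank_W_ge v c hspan hc
  have h3 := Submodule.finrank_add_finrank_orthogonal (Wsp v c)
  rw [finrank_euclideanSpace, Fintype.card_fin] at h3
  omega

end blocks

section comb

lemma frameM_comp {N d : ℕ} (c : Fin N → Fin d) (y : Fin d → V d) :
    frameM (fun _ => 1) (fun i => y (c i)) =
      frameM (fun a => ((Finset.univ.filter (fun i => c i = a)).card : ℝ)) y := by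
  classical
  ext a b
  simp only [frameM, Matrix.of_apply, one_mul]
  rw [← Finset.sum_fiberwise_of_maps_to (s := Finset.univ) (t := Finset.univ) (g := c) (fun _ _ => Finset.mem_univ _)]
  apply Finset.sum_congr rfl
  intro e _
  rw [Finset.sum_congr rfl (g := fun _ => y e a * y e b)]
  · rw [Finset.sum_const, nsmul_eq_mul]
  · intro i hi
    rw [(Finset.mem_filter.1 hi).2]

lemma det_frameM_sq {d : ℕ} (w : Fin d → ℝ) (y : Fin d → V d) :
    (frameM w y).det = (∏ a, w a) * (frameM (fun _ => 1) y).det := by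
  have h : ∀ w : Fin d → ℝ, frameM w y = (Matrix.of fun i j => y i j).transpose * Matrix.diagonal w * (Matrix.of fun i j => y i j) := by
    intro w
    ext a b
    rw [Matrix.mul_apply]
    simp only [frameM, Matrix.of_apply, Matrix.mul_diagonal, Matrix.transpose_apply]
    apply Finset.sum_congr rfl
    intro i _
    ring
  rw [h w, h (fun _ => 1)]
  simp only [Matrix.det_mul, Matrix.det_diagonal, Finset.prod_const_one, Matrix.det_transpose]
  ring

lemma coneOf_comp {N d e : ℕ} (c : Fin N → Fin e) (hc : Function.Surjective c) (y : Fin e → V d) :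
    coneOf (fun i => y (c i)) = coneOf y := by
  classical
  ext u
  constructor
  · rintro ⟨a, ha, rfl⟩
    refine ⟨fun b => ∑ i ∈ Finset.univ.filter (fun i => c i = b), a i, fun b => Finset.sum_nonneg (fun i _ => ha i), ?_⟩
    rw [← Finset.sum_fiberwise_of_maps_to (s := Finset.univ) (t := Finset.univ) (g := c) (fun _ _ => Finset.mem_univ _)]
    apply Finset.sum_congr rfl
    intro b _
    rw [Finset.sum_smul]
    apply Finset.sum_congr rfl
    intro i hi
    dsimp only
    rw [(Finset.mem_filter.1 hi).2]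
  · rintro ⟨a, ha, rfl⟩
    obtain ⟨rep, hrep⟩ := hc.hasRightInverse
    refine ⟨fun i => if rep (c i) = i then a (c i) else 0, ?_, ?_⟩
    · intro i
      dsimp only
      split_ifs
      · exact ha _
      · exact le_rfl
    · simp only [ite_smul, zero_smul]
      rw [← Finset.sum_filter]
      symm
      apply Finset.sum_bij' (i := fun i _ => c i) (j := fun b _ => rep b)
      · intro i hi; exact Finset.mem_univ _
      · intro b _
        simp [hrep b]
      · intro i hi
        exact (Finset.mem_filter.1 hi).2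
      · intro b _
        exact hrep b
      · intro i _
        rfl

lemma prod_card_eq {N d : ℕ} (hd : 1 ≤ d) (c : Fin N → Fin d)
    (hc : ∀ b, (Finset.univ.filter (fun i => c i = b)).card = N / d ∨
      (Finset.univ.filter (fun i => c i = b)).card = N / d + 1) :
    ∏ b, (Finset.univ.filter (fun i => c i = b)).card = balProd N d := by
  classical
  set m : Fin d → ℕ := fun b => (Finset.univ.filter (fun i => c i = b)).card with hm
  have hsum : ∑ b, m b = N := by
    have := Finset.card_eq_sum_card_fiberwise (f := c) (s := Finset.univ) (t := Finset.univ) (fun _ _ => Finset.mem_univ _)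
    rw [Finset.card_univ, Fintype.card_fin] at this
    rw [this]
  set T : Finset (Fin d) := Finset.univ.filter (fun b => m b = N / d + 1) with hT
  have hm' : ∀ b, m b = if b ∈ T then N / d + 1 else N / d := by
    intro b
    by_cases hb : b ∈ T
    · rw [if_pos hb]; exact (Finset.mem_filter.1 hb).2
    · rw [if_neg hb]
      rcases hc b with h | h
      · exact h
      · exact absurd (Finset.mem_filter.2 ⟨Finset.mem_univ b, h⟩ : b ∈ T) hb
  have hTc : T.card ≤ d := by simpa using Finset.card_le_univ T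
  have hs2 : d * (N / d) + T.card = N := by
    have e := hsum
    rw [Finset.sum_congr rfl (fun b _ => hm' b)] at e
    rw [Finset.sum_ite, Finset.sum_const, Finset.sum_const, smul_eq_mul, smul_eq_mul] at e
    have h1 : (Finset.univ.filter (fun b => b ∈ T)).card = T.card := by congr 1; ext b; simp
    have h2 : (Finset.univ.filter (fun b => ¬ b ∈ T)).card = d - T.card := by
      have : Finset.univ.filter (fun b => ¬ b ∈ T) = Finset.univ \ T := by ext b; simp
      rw [this, Finset.card_sdiff_of_subset (Finset.subset_univ _)]; simp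
    rw [h1, h2] at e
    have h3 : T.card * (N / d + 1) + (d - T.card) * (N / d) = (T.card + (d - T.card)) * (N/d) + T.card := by ring
    rw [h3, Nat.add_sub_cancel' hTc] at e
    exact e
  have hlt : T.card < d := by
    rcases hTc.lt_or_eq with h | h
    · exact h
    · exfalso
      rw [h] at hs2
      have h5 : N / d + 1 ≤ N / d := by
        rw [Nat.le_div_iff_mul_le (by omega)]
        have : (N / d + 1) * d = d * (N/d) + d := by ring
        omega
      omega
  have hmod : N % d = T.card := by
    have h6 := Nat.div_add_mod N d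
    omega
  unfold balProd
  rw [hmod]
  rw [Finset.prod_congr rfl (fun b _ => hm' b), Finset.prod_ite, Finset.prod_const, Finset.prod_const]
  have h1 : (Finset.univ.filter (fun b => b ∈ T)).card = T.card := by congr 1; ext b; simp
  have h2 : (Finset.univ.filter (fun b => ¬ b ∈ T)).card = d - T.card := by
    have : Finset.univ.filter (fun b => ¬ b ∈ T) = Finset.univ \ T := by ext b; simp
    rw [this, Finset.card_sdiff_of_subset (Finset.subset_univ _)]; simp
  rw [h1, h2]

end comb

section final

/-- The statement of the cone theorem. -/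
def ConeTheorem : Prop :=
  ∀ (N d : ℕ), 1 ≤ d → d ≤ N → ∀ (h : V d →ₗ[ℝ] ℝ) (z : Fin N → V d), (∀ i, h (z i) = 1) →
    ENNReal.ofReal (Matrix.det (frameM (fun _ => 1) z)) ≤ (balProd N d : ENNReal) * coneInt h z ^ 2

/-- The statement of the base case. -/
def ConeBasis : Prop :=
  ∀ (d : ℕ) (h : V d →ₗ[ℝ] ℝ) (z : Fin d → V d), (∀ i, h (z i) = 1) →
    ENNReal.ofReal (Matrix.det (frameM (fun _ => 1) z)) = coneInt h z ^ 2

lemma balProd_pos {N d : ℕ} (hd : 1 ≤ d) (hN : d ≤ N) : 0 < balProd N d := by
  unfold balProd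
  have : 0 < N / d := Nat.div_pos hN hd
  positivity

variable {k n : ℕ} (v : Fin (n + 1) → V n) (hv : ∀ i j, i ≠ j → dist (v i) (v j) = Real.sqrt 2)
include hv

/-- lower bound for every projection -/
theorem lower (CT : ConeTheorem) (hkn : k ≤ n) (E : Submodule ℝ (V n)) (hE : Module.finrank ℝ E = k) :
    ENNReal.ofReal ((n:ℝ)+1) ≤ (balProd (n+1) (k+1) : ENNReal) *
      ((k.factorial : ENNReal) * volume (E.orthogonalProjectionOnto '' convexHull ℝ (Set.range v))) ^ 2 := by
  have h := CT (n+1) (k+1) (by omega) (by omega) (h0 k) (fun i => lift (xco v E hE i)) (fun i => by simp)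
  rw [det_frame v E hE hv, coneInt_lift, ← vol_proj v E hE] at h
  exact h

/-- value for the balanced projection -/
theorem value (CB : ConeBasis) (hkn : k ≤ n) (c : Fin (n + 1) → Fin (k + 1))
    (hc : ∀ b, (Finset.univ.filter (fun i => c i = b)).card = (n + 1) / (k + 1) ∨
      (Finset.univ.filter (fun i => c i = b)).card = (n + 1) / (k + 1) + 1)
    (hE : Module.finrank ℝ (Wsp v c)ᗮ = k) :
    ENNReal.ofReal ((n:ℝ)+1) = (balProd (n+1) (k+1) : ENNReal) *
      ((k.factorial : ENNReal) * volume ((Wsp v c)ᗮ.orthogonalProjectionOnto '' convexHull ℝ (Set.range v))) ^ 2 := by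
  have hsurj : Function.Surjective c := by
    intro b
    have hpos : 0 < (Finset.univ.filter (fun i => c i = b)).card := by
      have : 0 < (n+1)/(k+1) := Nat.div_pos (by omega) (by omega)
      rcases hc b with h | h <;> omega
    obtain ⟨i, hi⟩ := Finset.card_pos.1 hpos
    exact ⟨i, (Finset.mem_filter.1 hi).2⟩
  obtain ⟨rep, hrep⟩ := hsurj.hasRightInverse
  have hx : ∀ i, xco v _ hE i = xco v _ hE (rep (c i)) := by
    intro i
    ext j
    rw [xco_apply, xco_apply]
    have hmem : v i - v (rep (c i)) ∈ Wsp v c :=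
      Submodule.subset_span ⟨i, rep (c i), (hrep (c i)).symm, rfl⟩
    have h0 : ⟪v i - v (rep (c i)), ((onb (Wsp v c)ᗮ hE j : (Wsp v c)ᗮ) : V n)⟫ = 0 :=
      Submodule.inner_right_of_mem_orthogonal hmem (onb (Wsp v c)ᗮ hE j).2
    rw [inner_sub_left] at h0
    linarith
  set y : Fin (k+1) → V (k+1) := fun a => lift (xco v _ hE (rep a)) with hy
  have hz : (fun i => lift (xco v _ hE i)) = fun i => y (c i) := by
    funext i
    rw [hx i]
  have hdet := det_frame v _ hE hv
  have hci := coneInt_lift (xco v _ hE)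
  rw [hz] at hdet hci
  rw [← vol_proj v _ hE] at hci
  have hcone : coneInt (h0 k) (fun i => y (c i)) = coneInt (h0 k) y := by
    unfold coneInt
    rw [coneOf_comp c hsurj y]
  rw [hcone] at hci
  rw [← hci, ← CB (k+1) (h0 k) y (fun i => rfl), ← hdet, frameM_comp, det_frameM_sq]
  rw [ENNReal.ofReal_mul (Finset.prod_nonneg (fun _ _ => Nat.cast_nonneg _))]
  congr 1
  rw [← prod_card_eq (by omega) c hc]
  rw [← Nat.cast_prod, ENNReal.ofReal_natCast]

/-- Filliman's lower bound from the cone theorem. -/
theorem filliman (CT : ConeTheorem) (CB : ConeBasis) (hkn : k ≤ n)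
    (c : Fin (n + 1) → Fin (k + 1))
    (hc : ∀ b, (Finset.univ.filter (fun i => c i = b)).card = (n + 1) / (k + 1) ∨
      (Finset.univ.filter (fun i => c i = b)).card = (n + 1) / (k + 1) + 1) :
    Module.finrank ℝ (Wsp v c)ᗮ = k ∧
    ∀ E : Submodule ℝ (V n), Module.finrank ℝ E = k →
    volume ((Wsp v c)ᗮ.orthogonalProjectionOnto '' convexHull ℝ (Set.range v)) ≤
      volume (E.orthogonalProjectionOnto '' convexHull ℝ (Set.range v)) := by
  have hsurj : Function.Surjective c := by
    intro b
    have hpos : 0 < (Finset.univ.filter (fun i => c i = b)).card := by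
      have : 0 < (n+1)/(k+1) := Nat.div_pos (by omega) (by omega)
      rcases hc b with h | h <;> omega
    obtain ⟨i, hi⟩ := Finset.card_pos.1 hpos
    exact ⟨i, (Finset.mem_filter.1 hi).2⟩
  have hfr : Module.finrank ℝ (Wsp v c)ᗮ = k := finrank_Wperp v c (span_top v hv) hsurj hkn
  refine ⟨hfr, fun E hE => ?_⟩
  have h1 := lower v hv CT hkn E hE
  rw [value v hv CB hkn c hc hfr] at h1
  have hb0 : (balProd (n+1) (k+1) : ENNReal) ≠ 0 := by
    have := balProd_pos (N := n+1) (d := k+1) (by omega) (by omega)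
    exact_mod_cast this.ne'
  rw [ENNReal.mul_le_mul_iff_right hb0 (ENNReal.natCast_ne_top _), ENNReal.pow_le_pow_left_iff (by norm_num),
    ENNReal.mul_le_mul_iff_right (by exact_mod_cast k.factorial_ne_zero) (ENNReal.natCast_ne_top _)] at h1
  exact h1

end final

end Fil27.Red
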