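import Mathlib
import Pool.Agent.helper27.Fil.Defs

/-!
The matrix inequality K1: if `∑ z_i z_iᵀ = 1` and `w_i > 0` then
`∑ ‖z_i‖² log w_i + 1/2 ∑_{i,j} ⟪z_i,z_j⟫² κ(log w_i - log w_j) ≤ log det (∑ w_i z_i z_iᵀ)`.
-/

namespace Fil27.K1
open MeasureTheory Matrix
open scoped RealInnerProductSpace Topology

variable {ι : Type*} [Fintype ι] {d : ℕ} (z : ι → V d)

lemma dot_frameM (w : ι → ℝ) (u y : Fin d → ℝ) :
    u ⬝ᵥ (frameM w z *ᵥ y) = ∑ i, w i * ((z i).ofLp ⬝ᵥ u) * ((z i).ofLp ⬝ᵥ y) := by
  simp only [dotProduct, mulVec, frameM, Matrix.of_apply]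
  calc _ = ∑ a, ∑ b, ∑ i, w i * ((z i).ofLp a * u a) * ((z i).ofLp b * y b) := by
        apply Finset.sum_congr rfl; intro a _
        rw [Finset.mul_sum]
        apply Finset.sum_congr rfl; intro b _
        rw [Finset.sum_mul, Finset.mul_sum]
        apply Finset.sum_congr rfl; intro i _
        ring
    _ = ∑ a, ∑ i, ∑ b, w i * ((z i).ofLp a * u a) * ((z i).ofLp b * y b) :=
        Finset.sum_congr rfl (fun a _ => Finset.sum_comm)
    _ = ∑ i, ∑ a, ∑ b, w i * ((z i).ofLp a * u a) * ((z i).ofLp b * y b) := Finset.sum_comm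
    _ = _ := by
        apply Finset.sum_congr rfl; intro i _
        rw [mul_assoc, Finset.sum_mul_sum, Finset.mul_sum]
        apply Finset.sum_congr rfl; intro a _
        rw [Finset.mul_sum]
        apply Finset.sum_congr rfl; intro b _
        ring

lemma frameM_isHermitian (w : ι → ℝ) : (frameM w z).IsHermitian := by
  ext a b
  simp only [Matrix.conjTranspose_apply, frameM, Matrix.of_apply, star_trivial]
  apply Finset.sum_congr rfl
  intro i _
  ring

omit [Fintype ι] in
lemma inner_eq (i j : ι) : ⟪z i, z j⟫ = (z i).ofLp ⬝ᵥ (z j).ofLp := by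
  rw [EuclideanSpace.inner_eq_star_dotProduct]
  simp [dotProduct_comm]

variable (hI : frameM (fun _ => 1) z = 1)
include hI

lemma dot_expand (u y : Fin d → ℝ) : u ⬝ᵥ y = ∑ i, ((z i).ofLp ⬝ᵥ u) * ((z i).ofLp ⬝ᵥ y) := by
  have := dot_frameM z (fun _ => 1) u y
  rw [hI, one_mulVec] at this
  simpa using this

lemma posDef_frameM (w : ι → ℝ) (hw : ∀ i, 0 < w i) : (frameM w z).PosDef := by
  apply PosDef.of_dotProduct_mulVec_pos (frameM_isHermitian z w)
  intro u hu
  rw [star_trivial, dot_frameM]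
  have h0 : 0 < u ⬝ᵥ u := by
    exact lt_of_le_of_ne (Finset.sum_nonneg (fun i _ => mul_self_nonneg _)) (Ne.symm (mt dotProduct_self_eq_zero.1 hu))
  rw [dot_expand z hI] at h0
  obtain ⟨i, -, hi⟩ := Finset.exists_ne_zero_of_sum_ne_zero h0.ne'
  apply Finset.sum_pos'
  · intro j _
    rw [mul_assoc]
    exact mul_nonneg (hw j).le (mul_self_nonneg _)
  · refine ⟨i, Finset.mem_univ _, ?_⟩
    rw [mul_assoc]
    exact mul_pos (hw i) (lt_of_le_of_ne (mul_self_nonneg _) (Ne.symm hi))

/-- operator Jensen for the inverse -/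
lemma inv_le (w : ι → ℝ) (hw : ∀ i, 0 < w i) (u : Fin d → ℝ) :
    u ⬝ᵥ ((frameM w z)⁻¹ *ᵥ u) ≤ ∑ i, (w i)⁻¹ * ((z i).ofLp ⬝ᵥ u) ^ 2 := by
  set M := frameM w z with hM
  have hdet : IsUnit M.det := (posDef_frameM z hI w hw).det_pos.ne'.isUnit
  set y := M⁻¹ *ᵥ u with hy
  have hMy : M *ᵥ y = u := by
    rw [hy, mulVec_mulVec, Matrix.mul_nonsing_inv _ hdet, one_mulVec]
  have h1 : u ⬝ᵥ y = ∑ i, w i * ((z i).ofLp ⬝ᵥ y) ^ 2 := by
    rw [dotProduct_comm, ← hMy, hM, dot_frameM]
    apply Finset.sum_congr rfl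
    intro i _
    ring
  have h2 := dot_expand z hI u y
  -- 2ab ≤ a²/w + w b²
  have h3 : 2 * (u ⬝ᵥ y) ≤ ∑ i, ((w i)⁻¹ * ((z i).ofLp ⬝ᵥ u) ^ 2 + w i * ((z i).ofLp ⬝ᵥ y) ^ 2) := by
    rw [h2, Finset.mul_sum]
    apply Finset.sum_le_sum
    intro i _
    have hwi := hw i
    have : (w i)⁻¹ * ((z i).ofLp ⬝ᵥ u) ^ 2 + w i * ((z i).ofLp ⬝ᵥ y) ^ 2 - 2 * (((z i).ofLp ⬝ᵥ u) * ((z i).ofLp ⬝ᵥ y))
        = w i * ((w i)⁻¹ * ((z i).ofLp ⬝ᵥ u) - ((z i).ofLp ⬝ᵥ y)) ^ 2 := by
      field_simp
      ring
    have h4 : 0 ≤ w i * ((w i)⁻¹ * ((z i).ofLp ⬝ᵥ u) - ((z i).ofLp ⬝ᵥ y)) ^ 2 := by positivity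
    linarith
  rw [Finset.sum_add_distrib, ← h1] at h3
  linarith

omit hI in
lemma trace_mul_frameM (N : Matrix (Fin d) (Fin d) ℝ) (e : ι → ℝ) :
    (N * frameM e z).trace = ∑ j, e j * ((z j).ofLp ⬝ᵥ (N *ᵥ (z j).ofLp)) := by
  simp only [trace, diag, Matrix.mul_apply, frameM, Matrix.of_apply, dotProduct, mulVec]
  calc _ = ∑ a, ∑ b, ∑ j, e j * ((z j).ofLp a * (N a b * (z j).ofLp b)) := by
        apply Finset.sum_congr rfl; intro a _
        apply Finset.sum_congr rfl; intro b _
        rw [Finset.mul_sum]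
        apply Finset.sum_congr rfl; intro i _
        ring
    _ = ∑ a, ∑ j, ∑ b, e j * ((z j).ofLp a * (N a b * (z j).ofLp b)) :=
        Finset.sum_congr rfl (fun a _ => Finset.sum_comm)
    _ = ∑ j, ∑ a, ∑ b, e j * ((z j).ofLp a * (N a b * (z j).ofLp b)) := Finset.sum_comm
    _ = _ := by
        apply Finset.sum_congr rfl; intro i _
        rw [Finset.mul_sum]
        apply Finset.sum_congr rfl; intro a _
        rw [Finset.mul_sum, Finset.mul_sum]

/-- derivative of `log det` along a line -/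
lemma hasDerivAt_logdet (m e : ι → ℝ) (hm : ∀ i, 0 < m i) (t : ℝ) :
    HasDerivAt (fun s => Real.log (Matrix.det (frameM (fun i => m i + e i * (s - t)) z)))
      (((frameM m z)⁻¹ * frameM e z).trace) t := by
  set M := frameM m z with hM
  have hdpos : 0 < M.det := (posDef_frameM z hI m hm).det_pos
  have hdet : IsUnit M.det := hdpos.ne'.isUnit
  set A := M⁻¹ * frameM e z with hA
  have hfac : ∀ s, frameM (fun i => m i + e i * (s - t)) z = M * (1 + (s - t) • A) := by
    intro s
    rw [Matrix.mul_add, mul_one, Matrix.mul_smul, hA, Matrix.mul_nonsing_inv_cancel_left _ _ hdet]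
    ext a b
    simp only [frameM, Matrix.of_apply, Matrix.add_apply, Matrix.smul_apply, hM, smul_eq_mul, Finset.mul_sum,
      ← Finset.sum_add_distrib]
    apply Finset.sum_congr rfl; intro i _
    ring
  have h1 : HasDerivAt (fun s => Matrix.det (1 + (s - t) • A)) A.trace t := by
    have hq : (fun s => Matrix.det (1 + (s - t) • A)) = fun s => 1 + A.trace * (s - t) +
        (Matrix.det (1 + (Polynomial.X : Polynomial ℝ) • A.map Polynomial.C)).divX.divX.eval (s - t) * (s - t) ^ 2 := by
      funext s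
      exact Matrix.det_one_add_smul (s - t) A
    rw [hq]
    generalize (Matrix.det (1 + (Polynomial.X : Polynomial ℝ) • A.map Polynomial.C)).divX.divX = q
    have h2 : HasDerivAt (fun s => 1 + A.trace * (s - t) + q.eval (s - t) * (s - t) ^ 2)
        (0 + A.trace * 1 + ((q.derivative.eval (t - t) * 1) * (t - t) ^ 2 + q.eval (t - t) * (2 * (t - t) ^ 1 * 1))) t := by
      have hs : HasDerivAt (fun s : ℝ => s - t) 1 t := (hasDerivAt_id t).sub_const t
      refine ((hasDerivAt_const t (1:ℝ)).add (hs.const_mul _)).add ?_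
      refine HasDerivAt.mul ?_ ?_
      · exact HasDerivAt.comp t (h := fun s => s - t) (h₂ := fun x => q.eval x) (q.hasDerivAt (t - t)) hs
      · exact hs.pow 2
    simpa using h2
  have h3 : HasDerivAt (fun s => M.det * Matrix.det (1 + (s - t) • A)) (M.det * A.trace) t := h1.const_mul _
  have h4 := h3.log (by simp [hdpos.ne'])
  simp only [sub_self, zero_smul, add_zero, det_one, mul_one] at h4
  rw [mul_div_cancel_left₀ _ hdpos.ne'] at h4
  simp only [hfac, Matrix.det_mul]
  exact h4


/-- the derivative of `log det` is at most the derivative of the bound -/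
lemma trace_le (m e : ι → ℝ) (hm : ∀ i, 0 < m i) (he : ∀ i, 0 ≤ e i) :
    ((frameM m z)⁻¹ * frameM e z).trace ≤ ∑ j, ∑ i, ⟪z i, z j⟫ ^ 2 * (e j / m i) := by
  rw [trace_mul_frameM]
  apply Finset.sum_le_sum
  intro j _
  refine (mul_le_mul_of_nonneg_left (inv_le z hI m hm _) (he j)).trans (le_of_eq ?_)
  rw [Finset.mul_sum]
  apply Finset.sum_congr rfl; intro i _
  rw [inner_eq, div_eq_mul_inv]
  ring

omit hI in
lemma kap_eq (a b : ℝ) (ha : 0 < a) (hb : 0 < b) :
    Real.log a + Real.log b + kap (Real.log a - Real.log b) = 2 * Real.log (max a b) - 1 + min a b / max a b := by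
  unfold kap
  rcases le_total a b with h | h
  · rw [max_eq_right h, min_eq_left h, abs_of_nonpos (sub_nonpos.2 (Real.log_le_log ha h))]
    rw [neg_neg, Real.exp_sub, Real.exp_log ha, Real.exp_log hb]
    ring
  · rw [max_eq_left h, min_eq_right h, abs_of_nonneg (sub_nonneg.2 (Real.log_le_log hb h))]
    rw [neg_sub, Real.exp_sub, Real.exp_log ha, Real.exp_log hb]
    ring

omit hI in
/-- pair function -/
noncomputable def pf (a b : ℝ) : ℝ := 2 * Real.log (max a b) - 1 + min a b / max a b

omit hI in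
lemma pf_comm (a b : ℝ) : pf a b = pf b a := by unfold pf; rw [max_comm, min_comm]

omit hI in
/-- right derivative of the pair function along the capping -/
lemma hasDeriv_pf (a b t : ℝ) (ha : 0 < a) (hb : 0 < b) (ht : 0 < t) :
    HasDerivWithinAt (fun s => pf (max a s) (max b s))
      ((if b ≤ t then 1 else 0) / max a t + (if a ≤ t then 1 else 0) / max b t) (Set.Ici t) t := by
  wlog hab : b ≤ a generalizing a b
  · have := this b a hb ha (le_of_not_ge hab)
    rw [add_comm] at this
    refine this.congr_of_eventuallyEq ?_ (pf_comm _ _)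
    exact Filter.Eventually.of_forall (fun s => pf_comm _ _)
  have hval : ∀ s, pf (max a s) (max b s) = 2 * Real.log (max a s) - 1 + max b s / max a s := by
    intro s
    unfold pf
    have : max b s ≤ max a s := max_le_max_right s hab
    rw [max_eq_left this, min_eq_right this]
  simp only [hval]
  by_cases h1 : a ≤ t
  · -- both capped
    have h2 : b ≤ t := hab.trans h1
    rw [if_pos h1, if_pos h2, max_eq_right h1, max_eq_right h2]
    have hd : HasDerivAt (fun s => 2 * Real.log s - 1 + 1) (1 / t + 1 / t) t := by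
      have := (((Real.hasDerivAt_log ht.ne').const_mul 2).sub_const 1).add_const 1
      have e : 1 / t + 1 / t = 2 * t⁻¹ := by rw [one_div]; ring
      rw [e]; exact this
    refine hd.hasDerivWithinAt.congr ?_ ?_
    · intro s hs
      have hs : t ≤ s := hs
      rw [max_eq_right (h1.trans hs), max_eq_right (h2.trans hs), div_self (ht.trans_le hs).ne']
    · rw [max_eq_right h1, max_eq_right h2, div_self ht.ne']
  · push Not at h1
    rw [if_neg (not_le.2 h1), zero_div, add_zero, max_eq_left h1.le]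
    have hev : ∀ᶠ s in 𝓝[Set.Ici t] t, s < a := by
      apply Filter.Eventually.filter_mono nhdsWithin_le_nhds
      exact eventually_lt_nhds h1
    by_cases h2 : b ≤ t
    · rw [if_pos h2]
      have hd : HasDerivAt (fun s => 2 * Real.log a - 1 + s / a) (1 / a) t := by
        simpa using ((hasDerivAt_id t).div_const a).const_add (2 * Real.log a - 1)
      refine hd.hasDerivWithinAt.congr_of_eventuallyEq ?_ ?_
      · filter_upwards [hev, self_mem_nhdsWithin] with s hs hs2
        have hs2 : t ≤ s := hs2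
        rw [max_eq_left hs.le, max_eq_right (h2.trans hs2)]
      · rw [max_eq_left h1.le, max_eq_right h2]
    · push Not at h2
      rw [if_neg (not_le.2 h2), zero_div]
      have hev2 : ∀ᶠ s in 𝓝[Set.Ici t] t, s < b := by
        apply Filter.Eventually.filter_mono nhdsWithin_le_nhds
        exact eventually_lt_nhds h2
      have hd : HasDerivAt (fun _ : ℝ => 2 * Real.log a - 1 + b / a) 0 t := hasDerivAt_const _ _
      refine hd.hasDerivWithinAt.congr_of_eventuallyEq ?_ ?_
      · filter_upwards [hev, hev2] with s hs hs2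
        rw [max_eq_left hs.le, max_eq_left hs2.le]
      · rw [max_eq_left h1.le, max_eq_left h2.le]

/-- right derivative of `log det` along the capping -/
lemma hasDeriv_ld (w : ι → ℝ) (hw : ∀ i, 0 < w i) (t : ℝ) :
    HasDerivWithinAt (fun s => Real.log (Matrix.det (frameM (fun i => max (w i) s) z)))
      (((frameM (fun i => max (w i) t) z)⁻¹ * frameM (fun i => if w i ≤ t then 1 else 0) z).trace) (Set.Ici t) t := by
  have h := hasDerivAt_logdet z hI (fun i => max (w i) t) (fun i => if w i ≤ t then 1 else 0)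
    (fun i => lt_max_of_lt_left (hw i)) t
  refine h.hasDerivWithinAt.congr_of_eventuallyEq ?_ ?_
  · have hev : ∀ᶠ s in 𝓝[Set.Ici t] t, ∀ i, t < w i → s < w i := by
      rw [Filter.eventually_all]
      intro i
      by_cases h1 : t < w i
      · have : ∀ᶠ s in 𝓝[Set.Ici t] t, s < w i := by
          apply Filter.Eventually.filter_mono nhdsWithin_le_nhds
          exact eventually_lt_nhds h1
        filter_upwards [this] with s hs _ using hs
      · exact Filter.Eventually.of_forall (fun s h => absurd h h1)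
    filter_upwards [hev, self_mem_nhdsWithin] with s hs hs2
    have hs2 : t ≤ s := hs2
    have : (fun i => max (w i) s) = fun i => max (w i) t + (if w i ≤ t then 1 else 0) * (s - t) := by
      funext i
      split_ifs with h1
      · rw [max_eq_right h1, max_eq_right (h1.trans hs2)]; ring
      · push Not at h1
        rw [max_eq_left h1.le, max_eq_left (hs i h1).le]; ring
    rw [this]
  · simp

/-- **K1** -/
theorem logdet_ge (w : ι → ℝ) (hw : ∀ i, 0 < w i) :
    ∑ i, ‖z i‖ ^ 2 * Real.log (w i) + 1 / 2 * ∑ i, ∑ j, ⟪z i, z j⟫ ^ 2 * kap (Real.log (w i) - Real.log (w j))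
      ≤ Real.log (Matrix.det (frameM w z)) := by
  classical
  -- rewrite the left side with pair functions
  have hp : ∀ i, ‖z i‖ ^ 2 = ∑ j, ⟪z i, z j⟫ ^ 2 := by
    intro i
    rw [← real_inner_self_eq_norm_sq, inner_eq, dot_expand z hI]
    apply Finset.sum_congr rfl; intro j _
    rw [inner_eq, dotProduct_comm ((z j).ofLp), sq]
  have hR : ∀ w : ι → ℝ, (∀ i, 0 < w i) →
      ∑ i, ‖z i‖ ^ 2 * Real.log (w i) + 1 / 2 * ∑ i, ∑ j, ⟪z i, z j⟫ ^ 2 * kap (Real.log (w i) - Real.log (w j))
      = 1 / 2 * ∑ i, ∑ j, ⟪z i, z j⟫ ^ 2 * pf (w i) (w j) := by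
    intro w hw
    have e1 : ∑ i, ‖z i‖ ^ 2 * Real.log (w i) = ∑ i, ∑ j, ⟪z i, z j⟫ ^ 2 * Real.log (w i) := by
      apply Finset.sum_congr rfl; intro i _
      rw [hp i, Finset.sum_mul]
    have e2 : ∑ i, ‖z i‖ ^ 2 * Real.log (w i) = ∑ i, ∑ j, ⟪z i, z j⟫ ^ 2 * Real.log (w j) := by
      rw [e1, Finset.sum_comm]
      apply Finset.sum_congr rfl; intro i _
      apply Finset.sum_congr rfl; intro j _
      rw [real_inner_comm]
    have e3 : ∑ i, ‖z i‖ ^ 2 * Real.log (w i) = 1 / 2 * (∑ i, ∑ j, ⟪z i, z j⟫ ^ 2 * Real.log (w i)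
        + ∑ i, ∑ j, ⟪z i, z j⟫ ^ 2 * Real.log (w j)) := by
      rw [← e1, ← e2]; ring
    rw [e3, ← mul_add]
    congr 1
    simp only [← Finset.sum_add_distrib]
    apply Finset.sum_congr rfl; intro i _
    apply Finset.sum_congr rfl; intro j _
    rw [← mul_add, ← mul_add, kap_eq _ _ (hw i) (hw j)]
    rfl
  rw [hR w hw]
  rcases isEmpty_or_nonempty ι with hemp | hne
  · simp only [Finset.univ_eq_empty, Finset.sum_empty, mul_zero]
    have : frameM w z = 1 := by
      rw [← hI]; ext a b; simp [frameM]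
    rw [this]; simp
  set F : ℝ → ℝ := fun s => Real.log (Matrix.det (frameM (fun i => max (w i) s) z)) -
    1 / 2 * ∑ i, ∑ j, ⟪z i, z j⟫ ^ 2 * pf (max (w i) s) (max (w j) s) with hF
  set F' : ℝ → ℝ := fun t => ((frameM (fun i => max (w i) t) z)⁻¹ * frameM (fun i => if w i ≤ t then 1 else 0) z).trace
    - 1 / 2 * ∑ i, ∑ j, ⟪z i, z j⟫ ^ 2 * ((if w j ≤ t then 1 else 0) / max (w i) t + (if w i ≤ t then 1 else 0) / max (w j) t) with hF'
  obtain ⟨i0, -, hi0⟩ := Finset.exists_min_image Finset.univ w Finset.univ_nonempty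
  obtain ⟨i1, -, hi1⟩ := Finset.exists_max_image Finset.univ w Finset.univ_nonempty
  set a := w i0
  set b := w i1
  have ha : 0 < a := hw i0
  have hab : a ≤ b := hi0 i1 (Finset.mem_univ _)
  have hder : ∀ t, 0 < t → HasDerivWithinAt F (F' t) (Set.Ici t) t := by
    intro t ht
    apply (hasDeriv_ld z hI w hw t).sub
    apply HasDerivWithinAt.const_mul
    apply HasDerivWithinAt.fun_sum
    intro i _
    apply HasDerivWithinAt.fun_sum
    intro j _
    exact (hasDeriv_pf (w i) (w j) t (hw i) (hw j) ht).const_mul _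
  have hle : ∀ t, 0 < t → F' t ≤ 0 := by
    intro t ht
    have h1 := trace_le z hI (fun i => max (w i) t) (fun i => if w i ≤ t then 1 else 0)
      (fun i => lt_max_of_lt_left (hw i)) (fun i => by split_ifs <;> norm_num)
    have h2 : ∑ j, ∑ i, ⟪z i, z j⟫ ^ 2 * ((if w j ≤ t then (1:ℝ) else 0) / max (w i) t)
        = 1 / 2 * ∑ i, ∑ j, ⟪z i, z j⟫ ^ 2 * ((if w j ≤ t then 1 else 0) / max (w i) t + (if w i ≤ t then 1 else 0) / max (w j) t) := by
      simp only [mul_add, Finset.sum_add_distrib]
      have h3 : ∑ i, ∑ j, ⟪z i, z j⟫ ^ 2 * ((if w j ≤ t then (1:ℝ) else 0) / max (w i) t)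
        = ∑ j, ∑ i, ⟪z i, z j⟫ ^ 2 * ((if w j ≤ t then (1:ℝ) else 0) / max (w i) t) := Finset.sum_comm
      have h4 : ∑ i, ∑ j, ⟪z i, z j⟫ ^ 2 * ((if w i ≤ t then (1:ℝ) else 0) / max (w j) t)
        = ∑ j, ∑ i, ⟪z i, z j⟫ ^ 2 * ((if w j ≤ t then (1:ℝ) else 0) / max (w i) t) := by
        apply Finset.sum_congr rfl; intro i _
        apply Finset.sum_congr rfl; intro j _
        rw [real_inner_comm]
      rw [h3, h4]; ring
    simp only [hF']
    linarith
  have hcont : ContinuousOn F (Set.Icc a b) := by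
    have hmax : ∀ i, ContinuousOn (fun s => max (w i) s) (Set.Icc a b) := fun i => by fun_prop
    apply ContinuousOn.sub
    · apply ContinuousOn.log
      · apply Continuous.continuousOn
        apply Continuous.matrix_det
        apply continuous_matrix
        intro i j
        simp only [frameM, Matrix.of_apply]
        fun_prop
      · intro s _
        exact (posDef_frameM z hI _ (fun i => lt_max_of_lt_left (hw i))).det_pos.ne'
    · apply ContinuousOn.mul continuousOn_const
      apply continuousOn_finsetSum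
      intro i _
      apply continuousOn_finsetSum
      intro j _
      apply ContinuousOn.mul continuousOn_const
      unfold pf
      apply ContinuousOn.add
      · apply ContinuousOn.sub _ continuousOn_const
        apply ContinuousOn.mul continuousOn_const
        apply ContinuousOn.log (by fun_prop)
        intro s _
        exact (lt_max_of_lt_left (lt_max_of_lt_left (hw i))).ne'
      · apply ContinuousOn.div (by fun_prop) (by fun_prop)
        intro s _
        exact (lt_max_of_lt_left (lt_max_of_lt_left (hw i))).ne'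
  have hmain : F b ≤ F a := by
    have := image_le_of_deriv_right_le_deriv_boundary (f := F) (f' := F') (a := a) (b := b) hcont
      (fun x hx => hder x (ha.trans_le hx.1)) (B := fun _ => F a) (B' := fun _ => 0) le_rfl continuousOn_const
      (fun x _ => hasDerivWithinAt_const _ _ _) (fun x hx => hle x (ha.trans_le hx.1))
    exact this (Set.right_mem_Icc.2 hab)
  have hFa : F a = Real.log (Matrix.det (frameM w z)) - 1 / 2 * ∑ i, ∑ j, ⟪z i, z j⟫ ^ 2 * pf (w i) (w j) := by
    have : ∀ i, max (w i) a = w i := fun i => max_eq_left (hi0 i (Finset.mem_univ _))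
    simp only [hF, this]
  have hFb : F b = 0 := by
    have : ∀ i, max (w i) b = b := fun i => max_eq_right (hi1 i (Finset.mem_univ _))
    simp only [hF, this]
    have h5 : frameM (fun _ => b) z = b • (1 : Matrix (Fin d) (Fin d) ℝ) := by
      rw [← hI]; ext p q
      simp [frameM, Finset.mul_sum]
    have hb : 0 < b := ha.trans_le hab
    rw [h5, Matrix.det_smul, det_one, mul_one, Real.log_pow]
    have h6 : pf b b = 2 * Real.log b := by
      unfold pf; rw [max_self, min_self, div_self hb.ne']; ring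
    simp only [h6]
    have h7 : ∑ i, ∑ j, ⟪z i, z j⟫ ^ 2 = (d : ℝ) := by
      have : ∑ i, ‖z i‖ ^ 2 = (d:ℝ) := by
        have h8 := trace_mul_frameM z (1 : Matrix (Fin d) (Fin d) ℝ) (fun _ => 1)
        rw [hI, mul_one, Matrix.trace_one, Fintype.card_fin] at h8
        rw [h8]
        apply Finset.sum_congr rfl; intro i _
        rw [one_mul, one_mulVec, ← inner_eq, real_inner_self_eq_norm_sq]
      rw [← this]
      apply Finset.sum_congr rfl; intro i _
      rw [hp i]
    simp only [← Finset.sum_mul]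
    rw [h7]
    simp
    ring
  rw [hFa, hFb] at hmain
  linarith

end Fil27.K1
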